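import Pool.Agent.helper97.BG.LSDefs

namespace Pool.Agent.helper97.BG

open Polynomial Filter Module

namespace LSB

/-! ### the valuation -/

theorem exists_ord {R K : Type*} [CommRing R] [IsDomain R] [IsDiscreteValuationRing R] [Field K]
    [Algebra R K] [IsFractionRing R K] :
    ∃ ord : K → ℤ, (∀ x y, x ≠ 0 → y ≠ 0 → ord (x * y) = ord x + ord y) ∧
      (∀ x, x ≠ 0 → (0 ≤ ord x ↔ ∃ a : R, algebraMap R K a = x)) ∧
      (∀ a : R, a ≠ 0 → (0 < ord (algebraMap R K a) ↔ a ∈ IsLocalRing.maximalIdeal R)) ∧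
      (∃ a : R, a ≠ 0 ∧ ord (algebraMap R K a) = 1) := by
  let v := (IsDiscreteValuationRing.maximalIdeal R).valuation K
  have hv : ∀ x : K, x ≠ 0 → v x ≠ 0 := fun x hx => (Valuation.ne_zero_iff v).mpr hx
  have hle : ∀ x : K, x ≠ 0 → (0 ≤ - WithZero.log (v x) ↔ v x ≤ 1) := by
    intro x hx
    rw [← WithZero.log_le_log (hv x hx) one_ne_zero, WithZero.log_one]
    constructor <;> intro h <;> linarith
  have hlt : ∀ x : K, x ≠ 0 → (0 < - WithZero.log (v x) ↔ v x < 1) := by
    intro x hx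
    rw [← WithZero.log_lt_log (hv x hx) one_ne_zero, WithZero.log_one]
    constructor <;> intro h <;> linarith
  refine ⟨fun x => - WithZero.log (v x), ?_, ?_, ?_, ?_⟩
  · intro x y hx hy
    simp only [map_mul]
    rw [WithZero.log_mul (hv x hx) (hv y hy)]
    ring
  · intro x hx
    rw [hle x hx]
    constructor
    · intro h
      obtain ⟨a, ha⟩ := IsDiscreteValuationRing.exists_lift_of_le_one h
      exact ⟨a, ha⟩
    · rintro ⟨a, rfl⟩
      exact IsDedekindDomain.HeightOneSpectrum.valuation_le_one _ _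
  · intro a ha
    have ha' : algebraMap R K a ≠ 0 := by
      simpa using ha
    rw [hlt _ ha']
    exact IsDedekindDomain.HeightOneSpectrum.valuation_lt_one_iff_mem _ _
  · obtain ⟨π, hπ⟩ :=
      (IsDiscreteValuationRing.maximalIdeal R).intValuation_exists_uniformizer
    have hπ0 : π ≠ 0 := by
      rintro rfl
      rw [map_zero] at hπ
      exact WithZero.exp_ne_zero hπ.symm
    refine ⟨π, hπ0, ?_⟩
    have : v (algebraMap R K π) = WithZero.exp (-1 : ℤ) := by
      rw [← hπ]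
      exact IsDedekindDomain.HeightOneSpectrum.valuation_of_algebraMap _ _
    change - WithZero.log (v (algebraMap R K π)) = 1
    rw [this, WithZero.log_exp]
    norm_num

theorem exists_ord_prime {O K : Type*} [CommRing O] [IsDomain O] [Field K] [Algebra O K]
    [IsFractionRing O K] (p : Ideal O) [p.IsPrime]
    (h : IsDiscreteValuationRing (Localization.AtPrime p)) :
    ∃ ord : K → ℤ, (∀ x y, x ≠ 0 → y ≠ 0 → ord (x * y) = ord x + ord y) ∧
      (∀ a : O, a ≠ 0 → 0 ≤ ord (algebraMap O K a)) ∧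
      (∀ a : O, a ≠ 0 → (0 < ord (algebraMap O K a) ↔ a ∈ p)) ∧
      (∀ x : K, x ≠ 0 → 0 ≤ ord x →
        ∃ a b : O, b ∉ p ∧ x * algebraMap O K b = algebraMap O K a) ∧
      (∃ a : O, a ∈ p ∧ a ≠ 0 ∧ ord (algebraMap O K a) = 1) := by
  have hinjO : Function.Injective (algebraMap O K) := IsFractionRing.injective O K
  have hu : ∀ y : p.primeCompl, IsUnit (algebraMap O K y) := by
    intro y
    refine isUnit_iff_ne_zero.mpr ?_
    intro h0
    have : (y : O) = 0 := hinjO (by rw [h0, map_zero])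
    exact y.2 (this ▸ p.zero_mem)
  let φ : Localization.AtPrime p →+* K := IsLocalization.lift (M := p.primeCompl) hu
  let : Algebra (Localization.AtPrime p) K := φ.toAlgebra
  have : IsScalarTower O (Localization.AtPrime p) K :=
    IsScalarTower.of_algebraMap_eq fun x => (IsLocalization.lift_eq hu x).symm
  have : IsFractionRing (Localization.AtPrime p) K :=
    IsFractionRing.isFractionRing_of_isDomain_of_isLocalization p.primeCompl _ _
  obtain ⟨ord, h1, h2, h3, h4⟩ := exists_ord (R := Localization.AtPrime p) (K := K)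
  have hinj : Function.Injective (algebraMap O (Localization.AtPrime p)) :=
    IsLocalization.injective _ p.primeCompl_le_nonZeroDivisors
  have h5 : ∀ a : O, a ≠ 0 → (0 < ord (algebraMap O K a) ↔ a ∈ p) := by
    intro a ha
    rw [IsScalarTower.algebraMap_apply O (Localization.AtPrime p) K, h3]
    · exact IsLocalization.AtPrime.to_map_mem_maximal_iff (Localization.AtPrime p) p a
    · exact fun h => ha (hinj (by rw [h, map_zero]))
  have h6 : ∀ a : O, a ≠ 0 → 0 ≤ ord (algebraMap O K a) := by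
    intro a ha
    rw [h2 _ (fun h => ha (hinjO (by rw [h, map_zero])))]
    exact ⟨algebraMap O _ a, (IsScalarTower.algebraMap_apply O (Localization.AtPrime p) K a).symm⟩
  refine ⟨ord, h1, h6, h5, ?_, ?_⟩
  · intro x hx hx0
    obtain ⟨y, rfl⟩ := (h2 x hx).mp hx0
    obtain ⟨⟨a, b⟩, hab⟩ := IsLocalization.surj p.primeCompl y
    refine ⟨a, b, b.2, ?_⟩
    rw [IsScalarTower.algebraMap_apply O (Localization.AtPrime p) K,
      IsScalarTower.algebraMap_apply O (Localization.AtPrime p) K, ← map_mul, hab]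
  · obtain ⟨y, hy0, hy⟩ := h4
    obtain ⟨⟨a, b⟩, hab⟩ := IsLocalization.surj p.primeCompl y
    simp only at hab
    have hb0 : (b : O) ≠ 0 := fun h => b.2 (h ▸ p.zero_mem)
    have hb : ord (algebraMap O K b) = 0 := by
      have h7 := h6 b hb0
      have h8 := h5 b hb0
      have h9 : ¬ (0 < ord (algebraMap O K b)) := fun h => b.2 (h8.mp h)
      omega
    have hbL : algebraMap O (Localization.AtPrime p) b ≠ 0 :=
      fun h => hb0 (hinj (by rw [h, map_zero]))
    have ha0 : a ≠ 0 := by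
      rintro rfl
      rw [map_zero] at hab
      exact (mul_ne_zero hy0 hbL) hab
    have hord : ord (algebraMap O K a) = 1 := by
      have h7 := congrArg (algebraMap (Localization.AtPrime p) K) hab
      rw [map_mul, ← IsScalarTower.algebraMap_apply, ← IsScalarTower.algebraMap_apply] at h7
      rw [← h7, h1, hy, hb, add_zero]
      · simpa using hy0
      · exact fun h => hb0 (hinjO (by rw [h, map_zero]))
    exact ⟨a, (h5 a ha0).mp (by rw [hord]; norm_num), ha0, hord⟩

/-! ### the powers of `W` and the chart -/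

section chart

variable {k K : Type*} [Field k] [Field K] [Algebra k K] {W : Submodule k K}

theorem pow_mul_mem {m n : ℕ} {a b : K} (ha : a ∈ W ^ m) (hb : b ∈ W ^ n) :
    a * b ∈ W ^ (m + n) := by
  rw [pow_add]
  exact Submodule.mul_mem_mul ha hb

theorem mem_pow_one {f : K} (hf : f ∈ W) : f ∈ W ^ 1 := by rwa [pow_one]

theorem one_mem_pow (h1 : (1 : K) ∈ W) (n : ℕ) : (1 : K) ∈ W ^ n := by
  have := Submodule.pow_mem_pow W h1 n
  rwa [one_pow] at this

theorem pow_mono (h1 : (1 : K) ∈ W) {m n : ℕ} (h : m ≤ n) : W ^ m ≤ W ^ n := by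
  intro a ha
  obtain ⟨j, rfl⟩ := Nat.exists_eq_add_of_le h
  have := pow_mul_mem ha (one_mem_pow h1 j)
  rwa [mul_one] at this

theorem div_pow_mem_chart {w : K} (hw0 : w ≠ 0) :
    ∀ (n : ℕ) (a : K), a ∈ W ^ n → a / w ^ n ∈ chart W w := by
  intro n
  induction n with
  | zero =>
    intro a ha
    rw [pow_zero, Submodule.mem_one] at ha
    obtain ⟨r, rfl⟩ := ha
    rw [pow_zero, div_one]
    exact (chart W w).algebraMap_mem r
  | succ n ih =>
    intro a ha
    rw [pow_succ] at ha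
    refine Submodule.mul_induction_on ha ?_ ?_
    · intro x hx y hy
      have h2 : y / w ∈ chart W w := Algebra.subset_adjoin ⟨y, hy, rfl⟩
      have h3 := (chart W w).mul_mem (ih x hx) h2
      rwa [div_mul_div_comm, ← pow_succ] at h3
    · intro x y hx hy
      rw [add_div]
      exact (chart W w).add_mem hx hy

theorem mem_chart {w : K} (hw : w ∈ W) (hw0 : w ≠ 0) {x : K}
    (hx : x ∈ chart W w) : ∃ n : ℕ, w ^ n * x ∈ W ^ n := by
  unfold chart at hx
  induction hx using Algebra.adjoin_induction with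
  | mem x hx =>
    obtain ⟨f, hf, rfl⟩ := hx
    refine ⟨1, ?_⟩
    rw [pow_one, pow_one, mul_div_cancel₀ _ hw0]
    exact hf
  | algebraMap r =>
    refine ⟨0, ?_⟩
    rw [pow_zero, pow_zero, one_mul, Submodule.mem_one]
    exact ⟨r, rfl⟩
  | add x y _ _ hx hy =>
    obtain ⟨m, hm⟩ := hx
    obtain ⟨n, hn⟩ := hy
    refine ⟨m + n, ?_⟩
    have h2 := pow_mul_mem hm (Submodule.pow_mem_pow W hw n)
    have h3 := pow_mul_mem (Submodule.pow_mem_pow W hw m) hn
    have h4 : w ^ (m + n) * (x + y) = w ^ m * x * w ^ n + w ^ m * (w ^ n * y) := by ring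
    rw [h4]
    exact Submodule.add_mem _ h2 h3
  | mul x y _ _ hx hy =>
    obtain ⟨m, hm⟩ := hx
    obtain ⟨n, hn⟩ := hy
    refine ⟨m + n, ?_⟩
    have h2 := pow_mul_mem hm hn
    have h4 : w ^ (m + n) * (x * y) = w ^ m * x * (w ^ n * y) := by ring
    rwa [h4]

/-- `K` is the field of fractions of each chart. -/
theorem isFractionRing_chart (h1 : (1 : K) ∈ W)
    (hg : IntermediateField.adjoin k (W : Set K) = ⊤) {w : K} (hw0 : w ≠ 0) :
    IsFractionRing (chart W w) K := by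
  have hpow : ∀ r ∈ Algebra.adjoin k (W : Set K), ∃ n : ℕ, r ∈ W ^ n := by
    intro r hr
    induction hr using Algebra.adjoin_induction with
    | mem x hx => exact ⟨1, mem_pow_one hx⟩
    | algebraMap r =>
      refine ⟨0, ?_⟩
      rw [pow_zero, Submodule.mem_one]
      exact ⟨r, rfl⟩
    | add x y _ _ hx hy =>
      obtain ⟨m, hm⟩ := hx
      obtain ⟨n, hn⟩ := hy
      exact ⟨m + n, Submodule.add_mem _ (pow_mono h1 (by omega) hm) (pow_mono h1 (by omega) hn)⟩
    | mul x y _ _ hx hy =>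
      obtain ⟨m, hm⟩ := hx
      obtain ⟨n, hn⟩ := hy
      exact ⟨m + n, pow_mul_mem hm hn⟩
  refine IsFractionRing.of_field _ _ fun z => ?_
  have hz : z ∈ IntermediateField.adjoin k (W : Set K) := by rw [hg]; trivial
  rw [IntermediateField.mem_adjoin_iff_div] at hz
  obtain ⟨r, hr, s, hs, rfl⟩ := hz
  obtain ⟨m, hm⟩ := hpow r hr
  obtain ⟨n, hn⟩ := hpow s hs
  have hm' := pow_mono h1 (Nat.le_add_right m n) hm
  have hn' := pow_mono h1 (Nat.le_add_left n m) hn
  refine ⟨⟨_, div_pow_mem_chart hw0 _ _ hm'⟩, ⟨_, div_pow_mem_chart hw0 _ _ hn'⟩, ?_⟩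
  change r / s = r / w ^ (m + n) / (s / w ^ (m + n))
  have : w ^ (m + n) ≠ 0 := pow_ne_zero _ hw0
  rw [div_div_div_cancel_right₀ this]

end chart

/-! ### homogeneous primes -/

section prime

variable {k K : Type*} [Field k] [Field K] [Algebra k K] {W : Submodule k K}
  {q : ℕ → Submodule k K}

theorem mul_mem_q (hq : HPrime W q) : ∀ (n m : ℕ) (a b : K), a ∈ W ^ n → b ∈ q m →
    a * b ∈ q (m + n) := by
  intro n
  induction n with
  | zero =>
    intro m a b ha hb
    rw [pow_zero, Submodule.mem_one] at ha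
    obtain ⟨r, rfl⟩ := ha
    rw [← Algebra.smul_def]
    exact (q m).smul_mem r hb
  | succ n ih =>
    intro m a b ha hb
    rw [pow_succ'] at ha
    refine Submodule.mul_induction_on ha ?_ ?_
    · intro x hx y hy
      have h2 := hq.fam _ x hx _ (ih m y b hy hb)
      rw [smul_eq_mul, ← mul_assoc] at h2
      exact h2
    · intro x y hx hy
      rw [add_mul]
      exact Submodule.add_mem _ hx hy

theorem pow_not_mem_q (hq : HPrime W q) {w : K} (hw : w ∈ W) (hwq : w ∉ q 1) (n : ℕ) :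
    w ^ n ∉ q n := by
  induction n with
  | zero => rw [pow_zero]; exact hq.one
  | succ n ih =>
    intro h
    rw [pow_succ] at h
    rcases hq.prime n 1 (w ^ n) w (Submodule.pow_mem_pow W hw n) (mem_pow_one hw) h with h | h
    · exact ih h
    · exact hwq h

/-- The prime ideal of the chart corresponding to `q`. -/
def pI (hq : HPrime W q) (h1 : (1 : K) ∈ W) {w : K} (hw : w ∈ W) (hw0 : w ≠ 0) :
    Ideal (chart W w) where
  carrier := {x | ∃ m : ℕ, w ^ m * (x : K) ∈ q m}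
  add_mem' := by
    rintro x y ⟨m, hm⟩ ⟨n, hn⟩
    refine ⟨m + n, ?_⟩
    have h2 := mul_mem_q hq n m _ _ (Submodule.pow_mem_pow W hw n) hm
    have h3 := mul_mem_q hq m n _ _ (Submodule.pow_mem_pow W hw m) hn
    rw [add_comm n m] at h3
    have h4 : w ^ (m + n) * ((x + y : chart W w) : K) =
        w ^ n * (w ^ m * (x : K)) + w ^ m * (w ^ n * (y : K)) := by
      push_cast
      ring
    rw [h4]
    exact Submodule.add_mem _ h2 h3
  zero_mem' := ⟨0, by simp⟩
  smul_mem' := by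
    rintro c x ⟨m, hm⟩
    obtain ⟨n, hn⟩ := mem_chart hw hw0 c.2
    refine ⟨m + n, ?_⟩
    have h2 := mul_mem_q hq n m _ _ hn hm
    have h4 : w ^ (m + n) * ((c • x : chart W w) : K) =
        w ^ n * (c : K) * (w ^ m * (x : K)) := by
      rw [smul_eq_mul]
      push_cast
      ring
    rwa [h4]

theorem mem_pI (hq : HPrime W q) (h1 : (1 : K) ∈ W) {w : K} (hw : w ∈ W) (hw0 : w ≠ 0)
    {x : chart W w} : x ∈ pI hq h1 hw hw0 ↔ ∃ m : ℕ, w ^ m * (x : K) ∈ q m := Iff.rfl

/-- An element of `W ^ n` is in `q` iff its dehomogenisation is in `pI`. -/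
theorem mem_q_iff (hq : HPrime W q) (h1 : (1 : K) ∈ W) {w : K} (hw : w ∈ W) (hw0 : w ≠ 0)
    (hwq : w ∉ q 1) {n : ℕ} {a : K} (ha : a ∈ W ^ n) :
    a ∈ q n ↔ (⟨a / w ^ n, div_pow_mem_chart hw0 n a ha⟩ : chart W w) ∈ pI hq h1 hw hw0 := by
  rw [mem_pI]
  constructor
  · intro h
    refine ⟨n, ?_⟩
    change w ^ n * (a / w ^ n) ∈ q n
    rwa [mul_div_cancel₀ _ (pow_ne_zero _ hw0)]
  · rintro ⟨m, hm⟩
    change w ^ m * (a / w ^ n) ∈ q m at hm
    have h2 := mul_mem_q hq n m _ _ (Submodule.pow_mem_pow W hw n) hm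
    have h3 : w ^ n * (w ^ m * (a / w ^ n)) = w ^ m * a := by
      field_simp
    rw [h3] at h2
    rcases hq.prime m n (w ^ m) a (Submodule.pow_mem_pow W hw m) ha h2 with h | h
    · exact absurd h (pow_not_mem_q hq hw hwq m)
    · exact h

theorem pI_isPrime (hq : HPrime W q) (h1 : (1 : K) ∈ W) {w : K} (hw : w ∈ W) (hw0 : w ≠ 0)
    (hwq : w ∉ q 1) : (pI hq h1 hw hw0).IsPrime := by
  refine ⟨?_, ?_⟩
  · intro h
    rw [Ideal.eq_top_iff_one, mem_pI] at h
    obtain ⟨m, hm⟩ := h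
    rw [OneMemClass.coe_one, mul_one] at hm
    exact pow_not_mem_q hq hw hwq m hm
  · rintro x y ⟨l, hl⟩
    obtain ⟨m, hm⟩ := mem_chart hw hw0 x.2
    obtain ⟨n, hn⟩ := mem_chart hw hw0 y.2
    have h2 := mul_mem_q hq (m + n) l _ _ (Submodule.pow_mem_pow W hw (m + n)) hl
    have h3 : w ^ (m + n) * (w ^ l * ((x * y : chart W w) : K)) =
        w ^ l * ((w ^ m * (x : K)) * (w ^ n * (y : K))) := by
      push_cast
      ring
    rw [h3] at h2
    rcases hq.prime l (m + n) (w ^ l) _ (Submodule.pow_mem_pow W hw l) (pow_mul_mem hm hn) h2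
      with h | h
    · exact absurd h (pow_not_mem_q hq hw hwq l)
    · rcases hq.prime m n _ _ hm hn h with h | h
      · exact Or.inl ⟨m, h⟩
      · exact Or.inr ⟨n, h⟩

theorem pI_ne_bot (hq : HPrime W q) (h1 : (1 : K) ∈ W) {w : K} (hw : w ∈ W) (hw0 : w ≠ 0)
    (h0 : ∃ m, q m ≠ ⊥) : pI hq h1 hw hw0 ≠ ⊥ := by
  obtain ⟨m, hm⟩ := h0
  obtain ⟨a, ha, ha0⟩ := Submodule.exists_mem_ne_zero_of_ne_bot hm
  intro h
  have h2 : (⟨a / w ^ m, div_pow_mem_chart hw0 m a (hq.le m ha)⟩ : chart W w) ∈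
      pI hq h1 hw hw0 := by
    refine ⟨m, ?_⟩
    change w ^ m * (a / w ^ m) ∈ q m
    rwa [mul_div_cancel₀ _ (pow_ne_zero _ hw0)]
  rw [h, Ideal.mem_bot] at h2
  have h3 : a / w ^ m = 0 := congrArg Subtype.val h2
  exact (div_ne_zero ha0 (pow_ne_zero _ hw0)) h3

theorem finite_pow [Module.Finite k W] (n : ℕ) : Module.Finite k ↥(W ^ n) :=
  Module.Finite.iff_fg.mpr ((Module.Finite.iff_fg.mp ‹_›).pow n)

/-- The chart is an algebra of finite type. -/
theorem finiteType_chart [Module.Finite k W] (w : K) : Algebra.FiniteType k (chart W w) := by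
  rw [← Subalgebra.fg_iff_finiteType]
  have hfg : (W.map (LinearMap.mulRight k w⁻¹)).FG := (Module.Finite.iff_fg.mp ‹_›).map _
  obtain ⟨S, hS⟩ := hfg
  refine ⟨S, ?_⟩
  rw [← Algebra.adjoin_span, hS]
  unfold chart
  congr 1
  ext x
  simp only [Submodule.map_coe, Set.mem_image, SetLike.mem_coe, LinearMap.mulRight_apply,
    Set.mem_setOf_eq, div_eq_mul_inv]
  constructor
  · rintro ⟨f, hf, rfl⟩; exact ⟨f, hf, rfl⟩
  · rintro ⟨f, hf, rfl⟩; exact ⟨f, hf, rfl⟩

/-- Restriction to the chart and to the curve. -/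
noncomputable def res (hq : HPrime W q) (h1 : (1 : K) ∈ W) {w : K} (hw : w ∈ W) (hw0 : w ≠ 0)
    (n : ℕ) : ↥(W ^ n) →ₗ[k] (chart W w ⧸ pI hq h1 hw hw0) :=
  (Ideal.Quotient.mkₐ k (pI hq h1 hw hw0)).toLinearMap ∘ₗ
    { toFun := fun a => ⟨(a : K) / w ^ n, div_pow_mem_chart hw0 n a a.2⟩
      map_add' := fun a b => Subtype.ext (by simp [add_div])
      map_smul' := fun c a => Subtype.ext (by simp [smul_div_assoc]) }

theorem res_apply (hq : HPrime W q) (h1 : (1 : K) ∈ W) {w : K} (hw : w ∈ W) (hw0 : w ≠ 0)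
    (n : ℕ) (a : ↥(W ^ n)) : res hq h1 hw hw0 n a =
      Ideal.Quotient.mk _ ⟨(a : K) / w ^ n, div_pow_mem_chart hw0 n a a.2⟩ := rfl

theorem ker_res (hq : HPrime W q) (h1 : (1 : K) ∈ W) {w : K} (hw : w ∈ W) (hw0 : w ≠ 0)
    (hwq : w ∉ q 1) (n : ℕ) :
    LinearMap.ker (res hq h1 hw hw0 n) = (q n).comap (W ^ n).subtype := by
  ext a
  rw [LinearMap.mem_ker, res_apply, Ideal.Quotient.eq_zero_iff_mem, Submodule.mem_comap]
  exact (mem_q_iff hq h1 hw hw0 hwq a.2).symm

theorem hq_eq [Module.Finite k W] (hq : HPrime W q) (h1 : (1 : K) ∈ W) {w : K} (hw : w ∈ W)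
    (hw0 : w ≠ 0) (hwq : w ∉ q 1) (n : ℕ) :
    BG.hq W q n = finrank k (LinearMap.range (res hq h1 hw hw0 n)) := by
  have hfin : Module.Finite k ↥(W ^ n) := finite_pow n
  have h2 := LinearMap.finrank_range_add_finrank_ker (res hq h1 hw hw0 n)
  rw [ker_res hq h1 hw hw0 hwq n,
    (Submodule.comapSubtypeEquivOfLe (hq.le n)).finrank_eq] at h2
  unfold BG.hq
  omega

theorem range_mono (hq : HPrime W q) (h1 : (1 : K) ∈ W) {w : K} (hw : w ∈ W)
    (hw0 : w ≠ 0) {m n : ℕ} (h : m ≤ n) :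
    LinearMap.range (res hq h1 hw hw0 m) ≤ LinearMap.range (res hq h1 hw hw0 n) := by
  obtain ⟨j, rfl⟩ := Nat.exists_eq_add_of_le h
  rintro _ ⟨a, rfl⟩
  refine ⟨⟨a * w ^ j, pow_mul_mem a.2 (Submodule.pow_mem_pow W hw j)⟩, ?_⟩
  rw [res_apply, res_apply]
  congr 1
  refine Subtype.ext ?_
  change (a : K) * w ^ j / w ^ (m + j) = (a : K) / w ^ m
  rw [pow_add, mul_div_mul_right _ _ (pow_ne_zero _ hw0)]

theorem exists_mem_range (hq : HPrime W q) (h1 : (1 : K) ∈ W) {w : K} (hw : w ∈ W)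
    (hw0 : w ≠ 0) (x : chart W w ⧸ pI hq h1 hw hw0) :
    ∃ n, x ∈ LinearMap.range (res hq h1 hw hw0 n) := by
  obtain ⟨y, rfl⟩ := Ideal.Quotient.mk_surjective x
  obtain ⟨n, hn⟩ := mem_chart hw hw0 y.2
  refine ⟨n, ⟨_, hn⟩, ?_⟩
  rw [res_apply]
  congr 1
  refine Subtype.ext ?_
  change w ^ n * (y : K) / w ^ n = y
  rw [mul_div_cancel_left₀ _ (pow_ne_zero _ hw0)]

theorem finite_range [Module.Finite k W] (hq : HPrime W q) (h1 : (1 : K) ∈ W) {w : K}
    (hw : w ∈ W) (hw0 : w ≠ 0) (n : ℕ) :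
    Module.Finite k (LinearMap.range (res hq h1 hw hw0 n)) := by
  have hfin : Module.Finite k ↥(W ^ n) := finite_pow n
  exact Module.Finite.range _

/-- Closed points. -/
theorem finrank_le_one_of_isMaximal [IsAlgClosed k] [Module.Finite k W] (hq : HPrime W q)
    (h1 : (1 : K) ∈ W) {w : K} (hw : w ∈ W) (hw0 : w ≠ 0)
    (hmax : (pI hq h1 hw hw0).IsMaximal) (n : ℕ) :
    finrank k (LinearMap.range (res hq h1 hw hw0 n)) ≤ 1 := by
  have hft := finiteType_chart (W := W) w
  let : Field (chart W w ⧸ pI hq h1 hw hw0) := Ideal.Quotient.field _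
  have : Algebra.FiniteType k (chart W w ⧸ pI hq h1 hw hw0) :=
    Algebra.FiniteType.of_surjective (Ideal.Quotient.mkₐ k (pI hq h1 hw hw0))
      (Ideal.Quotient.mkₐ_surjective k _)
  have hfin : Module.Finite k (chart W w ⧸ pI hq h1 hw hw0) :=
    finite_of_finite_type_of_isJacobsonRing k _
  have hbij := IsAlgClosed.algebraMap_bijective_of_isIntegral (k := k)
    (K := chart W w ⧸ pI hq h1 hw hw0)
  have h2 : finrank k (chart W w ⧸ pI hq h1 hw hw0) ≤ 1 := by
    refine finrank_le_one 1 fun x => ?_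
    obtain ⟨c, hc⟩ := hbij.2 x
    exact ⟨c, by rw [← hc, Algebra.algebraMap_eq_smul_one]⟩
  exact (Submodule.finrank_le _).trans h2

/-- If the function `hq` is bounded then `pI` is maximal. -/
theorem isMaximal_of_bdd [Module.Finite k W] (hq : HPrime W q) (h1 : (1 : K) ∈ W) {w : K}
    (hw : w ∈ W) (hw0 : w ≠ 0) (hwq : w ∉ q 1) {C : ℕ} (hC : ∀ m, BG.hq W q m ≤ C) :
    (pI hq h1 hw hw0).IsMaximal := by
  have hp := pI_isPrime hq h1 hw hw0 hwq
  have hC' : ∀ m, finrank k (LinearMap.range (res hq h1 hw hw0 m)) ≤ C := fun m => by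
    rw [← hq_eq hq h1 hw hw0 hwq m]; exact hC m
  -- choose `m` with the largest rank
  obtain ⟨m, hm⟩ : ∃ m, ∀ n, finrank k (LinearMap.range (res hq h1 hw hw0 n)) ≤
      finrank k (LinearMap.range (res hq h1 hw hw0 m)) := by
    have hne : (Set.range fun n => finrank k (LinearMap.range (res hq h1 hw hw0 n))).Nonempty :=
      ⟨_, 0, rfl⟩
    have hbd : BddAbove (Set.range fun n =>
        finrank k (LinearMap.range (res hq h1 hw hw0 n))) := ⟨C, by rintro _ ⟨n, rfl⟩; exact hC' n⟩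
    obtain ⟨m, hm⟩ := Nat.sSup_mem hne hbd
    exact ⟨m, fun n => (le_csSup hbd ⟨n, rfl⟩).trans_eq hm.symm⟩
  have htop : LinearMap.range (res hq h1 hw hw0 m) = ⊤ := by
    rw [eq_top_iff]
    intro x _
    obtain ⟨n, hn⟩ := exists_mem_range hq h1 hw hw0 x
    have hfin' := finite_range hq h1 hw hw0 (m + n)
    have heq : LinearMap.range (res hq h1 hw hw0 m) = LinearMap.range (res hq h1 hw hw0 (m + n)) :=
      Submodule.eq_of_le_of_finrank_le (range_mono hq h1 hw hw0 (by omega)) (hm _)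
    rw [heq]
    exact range_mono hq h1 hw hw0 (by omega) hn
  have hfin : Module.Finite k (chart W w ⧸ pI hq h1 hw hw0) := by
    have : Module.Finite k (⊤ : Submodule k (chart W w ⧸ pI hq h1 hw hw0)) := by
      rw [← htop]; exact finite_range hq h1 hw hw0 m
    exact Module.finite_def.mpr (Module.Finite.iff_fg.mp this)
  have : Algebra.IsIntegral k (chart W w ⧸ pI hq h1 hw hw0) := Algebra.IsIntegral.of_finite _ _
  exact Ideal.Quotient.maximal_of_isField _
    (isField_of_isIntegral_of_isField' (Field.toIsField k))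

end prime

end LSB

section

variable {k K : Type*} [Field k] [Field K] [Algebra k K]

open LSB in
theorem hprime_cases [IsAlgClosed k] {W : Submodule k K} {𝒲 : Finset K} (hS : Setup W 𝒲)
    {q : ℕ → Submodule k K} (hq' : HPrime W q) (h0 : ∃ m, q m ≠ ⊥) :
    (∃ C, ∀ m, hq W q m ≤ C) ∨
      ((∃ ord lam, CurveVal W q ord lam) ∧ HeightOne W q ∧ ¬ ∃ C, ∀ m, hq W q m ≤ C) := by
  have h1 := hS.one
  have hfinW := hS.fin
  by_cases hex : ∃ w ∈ 𝒲, w ∉ q 1
  swap
  · -- all the sections of the atlas are in `q`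
    left
    push Not at hex
    obtain ⟨N, hN⟩ := hS.atlas.cover
    have h2 : W ^ (N + 1) ≤ q (N + 1) := by
      refine hN.trans (iSup₂_le fun w hw => ?_)
      rintro _ ⟨a, ha, rfl⟩
      have h3 := mul_mem_q hq' N 1 a w ha (hex w hw)
      rw [add_comm 1 N, mul_comm] at h3
      exact h3
    have h3 : ∀ j, W ^ (N + 1 + j) ≤ q (N + 1 + j) := by
      intro j a ha
      rw [pow_add] at ha
      refine Submodule.mul_induction_on ha ?_ ?_
      · intro x hx y hy
        have h4 := mul_mem_q hq' j (N + 1) y x hy (h2 hx)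
        rwa [mul_comm] at h4
      · intro x y hx hy
        exact Submodule.add_mem _ hx hy
    refine ⟨∑ m ∈ Finset.range (N + 1), hq W q m, fun m => ?_⟩
    rcases lt_or_ge m (N + 1) with hm | hm
    · exact Finset.single_le_sum (f := fun m => hq W q m) (fun _ _ => Nat.zero_le _)
        (Finset.mem_range.mpr hm)
    · obtain ⟨j, rfl⟩ := Nat.exists_eq_add_of_le hm
      have h4 : q (N + 1 + j) = W ^ (N + 1 + j) := le_antisymm (hq'.le _) (h3 j)
      unfold hq
      rw [h4, Nat.sub_self]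
      exact Nat.zero_le _
  obtain ⟨w, hw𝒲, hwq⟩ := hex
  have hw := hS.atlas.mem w hw𝒲
  have hw0 := hS.atlas.ne_zero w hw𝒲
  have hp := pI_isPrime hq' h1 hw hw0 hwq
  have hpb := pI_ne_bot hq' h1 hw hw0 h0
  by_cases hmax : (pI hq' h1 hw hw0).IsMaximal
  · -- a closed point
    left
    refine ⟨1, fun m => ?_⟩
    rw [hq_eq hq' h1 hw hw0 hwq m]
    exact finrank_le_one_of_isMaximal hq' h1 hw hw0 hmax m
  · -- a curve
    right
    have hdvr := hS.dvr w hw𝒲 (pI hq' h1 hw hw0) hpb hmax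
    have hfr := isFractionRing_chart h1 hS.gen hw0
    obtain ⟨ord, o1, o2, o3, o4, o5⟩ := exists_ord_prime (K := K) (pI hq' h1 hw hw0) hdvr
    have opow : ∀ n : ℕ, ord (w ^ n) = n * ord w := by
      have ho1 : ord 1 = 0 := by
        have := o1 1 1 one_ne_zero one_ne_zero
        rw [mul_one] at this
        omega
      intro n
      induction n with
      | zero => rw [pow_zero, ho1]; simp
      | succ n ih =>
        rw [pow_succ, o1 _ _ (pow_ne_zero _ hw0) hw0, ih]
        push_cast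
        ring
    have odiv : ∀ (n : ℕ) (a : K), a ≠ 0 → ord (a / w ^ n) = ord a - n * ord w := by
      intro n a ha
      have h2 := o1 (a / w ^ n) (w ^ n) (div_ne_zero ha (pow_ne_zero _ hw0)) (pow_ne_zero _ hw0)
      rw [div_mul_cancel₀ _ (pow_ne_zero _ hw0), opow] at h2
      linarith
    refine ⟨⟨ord, ord w, ⟨o1, ?_, ?_, ?_, ?_, ?_⟩⟩, ?_, ?_⟩
    · intro n a ha ha0
      have h2 := o2 ⟨a / w ^ n, div_pow_mem_chart hw0 n a ha⟩ (by
        intro h
        exact (div_ne_zero ha0 (pow_ne_zero n hw0)) (congrArg Subtype.val h))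
      change 0 ≤ ord (a / w ^ n) at h2
      rw [odiv n a ha0] at h2
      linarith
    · intro n a ha ha0
      have h2 := o3 ⟨a / w ^ n, div_pow_mem_chart hw0 n a ha⟩ (by
        intro h
        exact (div_ne_zero ha0 (pow_ne_zero n hw0)) (congrArg Subtype.val h))
      rw [← mem_q_iff hq' h1 hw hw0 hwq ha] at h2
      change 0 < ord (a / w ^ n) ↔ _ at h2
      rw [odiv n a ha0] at h2
      rw [← h2]
      constructor <;> intro h <;> linarith
    · intro x hx hx0
      obtain ⟨a, b, hb, hab⟩ := o4 x hx hx0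
      obtain ⟨m, hm⟩ := mem_chart hw hw0 a.2
      obtain ⟨n, hn⟩ := mem_chart hw hw0 b.2
      refine ⟨m + n, w ^ n * (w ^ m * a), ?_, w ^ m * (w ^ n * b), ?_, ?_, ?_⟩
      · rw [add_comm m n]
        exact pow_mul_mem (Submodule.pow_mem_pow W hw n) hm
      · exact pow_mul_mem (Submodule.pow_mem_pow W hw m) hn
      · intro h
        exact hb ⟨m + n, by rw [pow_add, mul_assoc]; exact h⟩
      · change x * (b : K) = (a : K) at hab
        rw [← hab]
        ring
    · obtain ⟨a, hap, ha0, ha1⟩ := o5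
      obtain ⟨m, hm⟩ := hap
      have ha0' : (a : K) ≠ 0 := fun h => ha0 (Subtype.ext h)
      refine ⟨m, w ^ m * a, hm, mul_ne_zero (pow_ne_zero _ hw0) ha0', ?_⟩
      change ord (a : K) = 1 at ha1
      rw [o1 _ _ (pow_ne_zero _ hw0) ha0', opow, ha1]
    · exact ⟨w, hw, hw0, rfl⟩
    · intro q₂ hq₂ h₂ hle
      have hwq₂ : w ∉ q₂ 1 := fun h => hwq (hle 1 h)
      have hp₂ := pI_isPrime hq₂ h1 hw hw0 hwq₂
      have hpb₂ := pI_ne_bot hq₂ h1 hw hw0 h₂
      have hpp : pI hq₂ h1 hw hw0 ≤ pI hq' h1 hw hw0 := by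
        rintro x ⟨m, hm⟩
        exact ⟨m, hle m hm⟩
      have heq : pI hq₂ h1 hw hw0 = pI hq' h1 hw hw0 := by
        by_contra hne
        exact hmax (hS.dim w hw𝒲 _ _ hp₂ hp hpb₂ (lt_of_le_of_ne hpp hne))
      funext n
      apply le_antisymm (hle n)
      intro a ha
      rw [mem_q_iff hq₂ h1 hw hw0 hwq₂ (hq'.le n ha), heq]
      exact (mem_q_iff hq' h1 hw hw0 hwq (hq'.le n ha)).mp ha
    · rintro ⟨C, hC⟩
      exact hmax (isMaximal_of_bdd hq' h1 hw hw0 hwq hC)

end

end Pool.Agent.helper97.BG
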