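import Mathlib

/-!
# Codimension one points of an unramified cover of the plane
-/

namespace Pool.Agent.helper97.BG

namespace DVR

/-- Nonzero nonmaximal primes of `k[X, Y]` are principal. -/
theorem principal_of_prime {k : Type*} [Field k] (q : Ideal (MvPolynomial (Fin 2) k))
    [q.IsPrime] (h0 : q ≠ ⊥) (hm : ¬ q.IsMaximal) :
    ∃ π : MvPolynomial (Fin 2) k, q = Ideal.span {π} := by
  obtain ⟨x, hxq, hxp⟩ := Ideal.IsPrime.exists_mem_prime_of_ne_bot ‹_› h0
  refine ⟨x, ?_⟩
  by_contra hne
  have hP : (Ideal.span {x} : Ideal (MvPolynomial (Fin 2) k)).IsPrime :=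
    (Ideal.span_singleton_prime hxp.ne_zero).mpr hxp
  have hlt : (Ideal.span {x} : Ideal (MvPolynomial (Fin 2) k)) < q :=
    lt_of_le_of_ne ((Ideal.span_singleton_le_iff_mem _).mpr hxq) (Ne.symm hne)
  obtain ⟨m, hmm, hqm⟩ := Ideal.exists_le_maximal q (Ideal.IsPrime.ne_top ‹_›)
  have hlt2 : q < m := lt_of_le_of_ne hqm (fun h => hm (h ▸ hmm))
  have hmp : m.IsPrime := hmm.isPrime
  have hlt0 : (⊥ : Ideal (MvPolynomial (Fin 2) k)) < Ideal.span {x} := by
    rw [bot_lt_iff_ne_bot, Ne, Ideal.span_singleton_eq_bot]
    exact hxp.ne_zero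
  have hb : (⊥ : Ideal (MvPolynomial (Fin 2) k)).IsPrime := Ideal.isPrime_bot
  have h1 := Ideal.height_add_one_le_of_lt_of_isPrime hlt0
  have h2 := Ideal.height_add_one_le_of_lt_of_isPrime hlt
  have h3 := Ideal.height_add_one_le_of_lt_of_isPrime hlt2
  have h4 : (m.height : WithBot ℕ∞) ≤ ringKrullDim (MvPolynomial (Fin 2) k) :=
    Ideal.height_le_ringKrullDim_of_isPrime
  rw [MvPolynomial.ringKrullDim_of_isNoetherianRing, ringKrullDim_eq_zero_of_field] at h4
  have h5 : (m.height : WithBot ℕ∞) ≤ ((2 : ℕ∞) : WithBot ℕ∞) := by
    simpa using h4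
  have h6 : m.height ≤ 2 := by exact_mod_cast h5
  rw [Ideal.height_bot, zero_add] at h1
  have h7 : (3 : ℕ∞) ≤ m.height := by
    calc (3 : ℕ∞) = 1 + 1 + 1 := by norm_num
      _ ≤ (Ideal.span {x} : Ideal (MvPolynomial (Fin 2) k)).height + 1 + 1 := by gcongr
      _ ≤ q.height + 1 := by gcongr
      _ ≤ m.height := h3
  have h8 : (3 : ℕ∞) ≤ 2 := h7.trans h6
  exact absurd h8 (by decide)

/-- The local rings of `O` at the primes which do not contain `f` are unramified over `k[s, t]`
if `f dx` is in the span of `ds` and `dt` for all `x`. -/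
theorem formallyUnramified {k A O : Type*} [CommRing k] [CommRing A] [CommRing O]
    [Algebra k A] [Algebra k O] [Algebra A O] [IsScalarTower k A O] (p : Ideal O) [p.IsPrime]
    {s t f : O} (hs : s ∈ (algebraMap A O).range) (ht : t ∈ (algebraMap A O).range)
    (hf : f ∉ p) (h : ∀ x : O, f • KaehlerDifferential.D k O x ∈
      Submodule.span O {KaehlerDifferential.D k O s, KaehlerDifferential.D k O t}) :
    Algebra.FormallyUnramified A (Localization.AtPrime p) := by
  constructor
  have hu : ∀ g : O, g ∉ p → IsUnit (algebraMap O (Localization.AtPrime p) g) := fun g hg =>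
    IsLocalization.map_units (Localization.AtPrime p) (⟨g, hg⟩ : p.primeCompl)
  have h1 : ∀ x : O, KaehlerDifferential.D A (Localization.AtPrime p)
      (algebraMap O (Localization.AtPrime p) x) = 0 := by
    intro x
    have h2 := h x
    have h3 : KaehlerDifferential.map k A O (Localization.AtPrime p)
        (f • KaehlerDifferential.D k O x) = 0 := by
      have h4 : ∀ y ∈ Submodule.span O {KaehlerDifferential.D k O s,
          KaehlerDifferential.D k O t},
          KaehlerDifferential.map k A O (Localization.AtPrime p) y = 0 := by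
        intro y hy
        induction hy using Submodule.span_induction with
        | mem y hy =>
          rcases hy with rfl | hy
          · obtain ⟨a, rfl⟩ := hs
            rw [KaehlerDifferential.map_D, ← IsScalarTower.algebraMap_apply]
            exact Derivation.map_algebraMap _ _
          · rw [Set.mem_singleton_iff] at hy
            subst hy
            obtain ⟨a, rfl⟩ := ht
            rw [KaehlerDifferential.map_D, ← IsScalarTower.algebraMap_apply]
            exact Derivation.map_algebraMap _ _
        | zero => exact map_zero _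
        | add y z _ _ hy hz => rw [map_add, hy, hz, add_zero]
        | smul a y _ hy => rw [map_smul, hy, smul_zero]
      exact h4 _ h2
    rw [map_smul, KaehlerDifferential.map_D] at h3
    have h5 : algebraMap O (Localization.AtPrime p) f •
        KaehlerDifferential.D A (Localization.AtPrime p)
          (algebraMap O (Localization.AtPrime p) x) = 0 := by
      rw [algebraMap_smul]
      exact h3
    exact ((hu f hf).smul_eq_zero).mp h5
  have h2 : ∀ y : Localization.AtPrime p, KaehlerDifferential.D A (Localization.AtPrime p) y = 0 := by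
    intro y
    obtain ⟨⟨x, g⟩, hxg⟩ := IsLocalization.surj p.primeCompl y
    have h3 := congrArg (KaehlerDifferential.D A (Localization.AtPrime p)) hxg
    rw [Derivation.leibniz] at h3
    simp only [h1, smul_zero, zero_add] at h3
    exact ((hu g g.2).smul_eq_zero).mp h3
  refine subsingleton_of_forall_eq 0 fun z => ?_
  have hz : z ∈ Submodule.span (Localization.AtPrime p)
      (Set.range (KaehlerDifferential.D A (Localization.AtPrime p))) := by
    rw [KaehlerDifferential.span_range_derivation]
    trivial
  induction hz using Submodule.span_induction with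
  | mem y hy =>
    obtain ⟨y, rfl⟩ := hy
    exact h2 y
  | zero => rfl
  | add y z _ _ hy hz => rw [hy, hz, add_zero]
  | smul a y _ hy => rw [hy, smul_zero]

end DVR

open DVR in
theorem dvr_of_unr {k O : Type*} [Field k] [IsAlgClosed k] [CommRing O] [IsDomain O]
    [Algebra k O] [Algebra.FiniteType k O] (htr : Algebra.trdeg k O = 2) (p : Ideal O)
    [p.IsPrime] (h0 : p ≠ ⊥) (hm : ¬ p.IsMaximal) {s t f : O} (hf : f ∉ p)
    (h : ∀ x : O, f • KaehlerDifferential.D k O x ∈
      Submodule.span O {KaehlerDifferential.D k O s, KaehlerDifferential.D k O t}) :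
    IsDiscreteValuationRing (Localization.AtPrime p) := by
  let φ : MvPolynomial (Fin 2) k →ₐ[k] O := MvPolynomial.aeval ![s, t]
  let : Algebra (MvPolynomial (Fin 2) k) O := φ.toRingHom.toAlgebra
  have : IsScalarTower k (MvPolynomial (Fin 2) k) O :=
    IsScalarTower.of_algebraMap_eq fun x => (φ.commutes x).symm
  have hs : s ∈ (algebraMap (MvPolynomial (Fin 2) k) O).range :=
    ⟨MvPolynomial.X 0, by
      change φ (MvPolynomial.X 0) = s
      simp [φ]⟩
  have ht : t ∈ (algebraMap (MvPolynomial (Fin 2) k) O).range :=
    ⟨MvPolynomial.X 1, by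
      change φ (MvPolynomial.X 1) = t
      simp [φ]⟩
  have : Algebra.FormallyUnramified (MvPolynomial (Fin 2) k) (Localization.AtPrime p) :=
    formallyUnramified p hs ht hf h
  have : IsNoetherianRing O := Algebra.FiniteType.isNoetherianRing k O
  have : Algebra.FiniteType (MvPolynomial (Fin 2) k) O :=
    Algebra.FiniteType.of_restrictScalars_finiteType k (MvPolynomial (Fin 2) k) O
  have : Algebra.IsUnramifiedAt (MvPolynomial (Fin 2) k) p := ‹_›
  set q := p.under (MvPolynomial (Fin 2) k) with hq
  have : q.IsPrime := inferInstance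
  let := Localization.AtPrime.algebraOfLiesOver q p
  obtain ⟨hsep, hmap⟩ := (Algebra.isUnramifiedAt_iff_map_eq (MvPolynomial (Fin 2) k) q p).mp
    inferInstance
  have hmax0 : IsLocalRing.maximalIdeal (Localization.AtPrime p) ≠ ⊥ := by
    intro hbot
    apply h0
    rw [← Localization.AtPrime.under_maximalIdeal (I := p), hbot]
    exact Ideal.comap_bot_of_injective _
      (IsLocalization.injective (Localization.AtPrime p) p.primeCompl_le_nonZeroDivisors)
  have hq0 : q ≠ ⊥ := by
    intro hbot
    rw [hbot, Ideal.map_bot] at hmap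
    exact hmax0 hmap.symm
  have hqm : ¬ q.IsMaximal := by
    intro hmax
    apply hm
    have hsur : Function.Surjective (algebraMap (MvPolynomial (Fin 2) k) q.ResidueField) :=
      q.algebraMap_residueField_surjective
    have : Algebra.FiniteType k q.ResidueField :=
      Algebra.FiniteType.of_surjective
        (IsScalarTower.toAlgHom k (MvPolynomial (Fin 2) k) q.ResidueField) hsur
    have : Module.Finite k q.ResidueField := finite_of_finite_type_of_isJacobsonRing k _
    have : IsScalarTower k q.ResidueField p.ResidueField := by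
      refine IsScalarTower.of_algebraMap_eq fun x => ?_
      rw [IsScalarTower.algebraMap_apply k (MvPolynomial (Fin 2) k) q.ResidueField,
        ← IsScalarTower.algebraMap_apply (MvPolynomial (Fin 2) k) q.ResidueField,
        ← IsScalarTower.algebraMap_apply]
    have : Algebra.IsAlgebraic k p.ResidueField :=
      Algebra.IsAlgebraic.trans k q.ResidueField p.ResidueField
    have : Algebra.IsAlgebraic k (O ⧸ p) :=
      Algebra.IsAlgebraic.of_injective (IsScalarTower.toAlgHom k (O ⧸ p) p.ResidueField)
        p.injective_algebraMap_quotient_residueField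
    have : Algebra.IsIntegral k (O ⧸ p) := Algebra.isAlgebraic_iff_isIntegral.mp this
    exact Ideal.Quotient.maximal_of_isField _
      (isField_of_isIntegral_of_isField' (Field.toIsField k))
  obtain ⟨π, hπ⟩ := principal_of_prime q hq0 hqm
  rw [hπ, Ideal.map_span, Set.image_singleton] at hmap
  have hnf : ¬ IsField (Localization.AtPrime p) := fun hfield =>
    hmax0 (IsLocalRing.isField_iff_maximalIdeal_eq.mp hfield)
  have hpr : (IsLocalRing.maximalIdeal (Localization.AtPrime p)).IsPrincipal :=
    ⟨_, hmap.symm⟩
  have htfae := (IsDiscreteValuationRing.TFAE (Localization.AtPrime p) hnf).out 0 4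
  exact htfae.mpr hpr

end Pool.Agent.helper97.BG
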